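import Mathlib
import Pool.Agent.U398.MV.Stm2

/-!
# Project MV2, package RHO: the autocorrelation of `gg`
-/

set_option autoImplicit false

open MeasureTheory Set Pool.Agent.U398.MV

namespace Pool.Agent.U20.MV2.RHO

theorem gg_left {t : ℝ} (h : t < -1) : gg t = 0 := by
  unfold gg
  rw [if_neg (by linarith), max_eq_left (by linarith)]
  norm_num

theorem gg_neg {t : ℝ} (h1 : -1 ≤ t) (h2 : t < 0) : gg t = -(1 / 2) * (1 + t) ^ 2 := by
  unfold gg
  rw [if_neg (by linarith), max_eq_right (by linarith)]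

theorem gg_pos {t : ℝ} (h1 : 0 ≤ t) (h2 : t ≤ 1) : gg t = 1 / 2 * (1 - t) ^ 2 := by
  unfold gg
  rw [if_pos h1, max_eq_right (by linarith)]

theorem gg_right {t : ℝ} (h : 1 ≤ t) : gg t = 0 := by
  unfold gg
  rw [if_pos (by linarith), max_eq_left (by linarith)]
  norm_num

/-- the integral of a polynomial of degree four -/
theorem poly (a b c0 c1 c2 c3 c4 : ℝ) :
    ∫ t in a..b, (c0 + c1 * t + c2 * t ^ 2 + c3 * t ^ 3 + c4 * t ^ 4) =
      c0 * (b - a) + c1 * (b ^ 2 - a ^ 2) / 2 + c2 * (b ^ 3 - a ^ 3) / 3 +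
        c3 * (b ^ 4 - a ^ 4) / 4 + c4 * (b ^ 5 - a ^ 5) / 5 := by
  have h : ∀ t ∈ uIcc a b, HasDerivAt (fun t : ℝ => c0 * t + c1 * t ^ 2 / 2 + c2 * t ^ 3 / 3 +
      c3 * t ^ 4 / 4 + c4 * t ^ 5 / 5) (c0 + c1 * t + c2 * t ^ 2 + c3 * t ^ 3 + c4 * t ^ 4) t := by
    intro t _
    have h0 : HasDerivAt (fun t : ℝ => c0 * t) (c0 * 1) t := (hasDerivAt_id t).const_mul c0
    have h1 := ((hasDerivAt_pow 2 t).const_mul c1).div_const 2
    have h2 := ((hasDerivAt_pow 3 t).const_mul c2).div_const 3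
    have h3 := ((hasDerivAt_pow 4 t).const_mul c3).div_const 4
    have h4 := ((hasDerivAt_pow 5 t).const_mul c4).div_const 5
    have h5 : HasDerivAt (fun t : ℝ => c0 * t + c1 * t ^ 2 / 2 + c2 * t ^ 3 / 3 +
      c3 * t ^ 4 / 4 + c4 * t ^ 5 / 5) _ t := (((h0.add h1).add h2).add h3).add h4
    exact h5.congr_deriv (by push_cast; ring)
  rw [intervalIntegral.integral_eq_sub_of_hasDerivAt h
    (Continuous.intervalIntegrable (by fun_prop) _ _)]
  ring

/-- the indicator of an interval times a polynomial -/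
theorem ind (a b c0 c1 c2 c3 c4 : ℝ) (hab : a ≤ b) :
    Integrable ((Ico a b).indicator fun t : ℝ => c0 + c1 * t + c2 * t ^ 2 + c3 * t ^ 3 + c4 * t ^ 4) ∧
    ∫ t, (Ico a b).indicator (fun t : ℝ => c0 + c1 * t + c2 * t ^ 2 + c3 * t ^ 3 + c4 * t ^ 4) t =
      c0 * (b - a) + c1 * (b ^ 2 - a ^ 2) / 2 + c2 * (b ^ 3 - a ^ 3) / 3 +
        c3 * (b ^ 4 - a ^ 4) / 4 + c4 * (b ^ 5 - a ^ 5) / 5 := by
  constructor
  · rw [integrable_indicator_iff measurableSet_Ico]
    exact (Continuous.integrableOn_Icc (by fun_prop)).mono_set Ico_subset_Icc_self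
  · rw [integral_indicator measurableSet_Ico, integral_Ico_eq_integral_Ioo,
      ← integral_Ioc_eq_integral_Ioo, ← intervalIntegral.integral_of_le hab, poly]

theorem small {z : ℝ} (h0 : 0 ≤ z) (h1 : z ≤ 1) : ∫ t : ℝ, gg t * gg (t + z) =
    1 / 10 - z / 2 + 2 / 3 * z ^ 2 - z ^ 3 / 3 + z ^ 4 / 12 - z ^ 5 / 40 := by
  have hf : (fun t : ℝ => gg t * gg (t + z)) = fun t =>
      ((Ico (-1) (-z)).indicator (fun t : ℝ => ((1 + z) ^ 2 / 4) + ((1 + z) * (2 + z) / 2) * t +
          (((2 + z) ^ 2 + 2 * (1 + z)) / 4) * t ^ 2 + ((2 + z) / 2) * t ^ 3 + (1 / 4) * t ^ 4) t +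
        (Ico (-z) 0).indicator (fun t : ℝ => (-(1 - z) ^ 2 / 4) + ((1 - z) * z / 2) * t +
          (-(z ^ 2 - 2 * (1 - z)) / 4) * t ^ 2 + (-z / 2) * t ^ 3 + (-1 / 4) * t ^ 4) t) +
        (Ico 0 (1 - z)).indicator (fun t : ℝ => ((1 - z) ^ 2 / 4) + (-(1 - z) * (2 - z) / 2) * t +
          (((2 - z) ^ 2 + 2 * (1 - z)) / 4) * t ^ 2 + (-(2 - z) / 2) * t ^ 3 + (1 / 4) * t ^ 4) t := by
    funext t
    rcases lt_or_ge t (-1) with h | h
    · rw [gg_left h, indicator_of_notMem (fun hm => by linarith [hm.1]),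
        indicator_of_notMem (fun hm => by linarith [hm.1]),
        indicator_of_notMem (fun hm => by linarith [hm.1])]
      ring
    rcases lt_or_ge t (-z) with h' | h'
    · rw [gg_neg h (by linarith), gg_neg (by linarith) (by linarith), indicator_of_mem (show t ∈ Ico (-1) (-z) from ⟨h, h'⟩),
        indicator_of_notMem (fun hm => by linarith [hm.1]),
        indicator_of_notMem (fun hm => by linarith [hm.1])]
      ring
    rcases lt_or_ge t 0 with h2 | h2
    · rw [gg_neg h h2, gg_pos (by linarith) (by linarith),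
        indicator_of_notMem (fun hm => by linarith [hm.2]), indicator_of_mem (show t ∈ Ico (-z) 0 from ⟨h', h2⟩),
        indicator_of_notMem (fun hm => by linarith [hm.1])]
      ring
    rcases lt_or_ge t (1 - z) with h3 | h3
    · rw [gg_pos h2 (by linarith), gg_pos (by linarith) (by linarith),
        indicator_of_notMem (fun hm => by linarith [hm.2]),
        indicator_of_notMem (fun hm => by linarith [hm.2]), indicator_of_mem (show t ∈ Ico 0 (1 - z) from ⟨h2, h3⟩)]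
      ring
    · rw [gg_right (by linarith : 1 ≤ t + z), indicator_of_notMem (fun hm => by linarith [hm.2]),
        indicator_of_notMem (fun hm => by linarith [hm.2]),
        indicator_of_notMem (fun hm => by linarith [hm.2])]
      ring
  have i1 := ind (-1) (-z) ((1 + z) ^ 2 / 4) ((1 + z) * (2 + z) / 2)
    (((2 + z) ^ 2 + 2 * (1 + z)) / 4) ((2 + z) / 2) (1 / 4) (by linarith)
  have i2 := ind (-z) 0 (-(1 - z) ^ 2 / 4) ((1 - z) * z / 2)
    (-(z ^ 2 - 2 * (1 - z)) / 4) (-z / 2) (-1 / 4) (by linarith)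
  have i3 := ind 0 (1 - z) ((1 - z) ^ 2 / 4) (-(1 - z) * (2 - z) / 2)
    (((2 - z) ^ 2 + 2 * (1 - z)) / 4) (-(2 - z) / 2) (1 / 4) (by linarith)
  have e := integral_add (i1.1.add i2.1) i3.1
  have e' := integral_add i1.1 i2.1
  simp only [Pi.add_apply] at e
  rw [hf, e, e', i1.2, i2.2, i3.2]
  ring

theorem middle {z : ℝ} (h0 : 1 ≤ z) (h1 : z ≤ 2) : ∫ t : ℝ, gg t * gg (t + z) =
    -(2 - z) ^ 5 / 120 := by
  have hf : (fun t : ℝ => gg t * gg (t + z)) =
      (Ico (-1) (1 - z)).indicator (fun t : ℝ => (-(1 - z) ^ 2 / 4) + ((1 - z) * z / 2) * t +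
          (-(z ^ 2 - 2 * (1 - z)) / 4) * t ^ 2 + (-z / 2) * t ^ 3 + (-1 / 4) * t ^ 4) := by
    funext t
    rcases lt_or_ge t (-1) with h | h
    · rw [gg_left h, indicator_of_notMem (fun hm => by linarith [hm.1])]
      ring
    rcases lt_or_ge t (1 - z) with h3 | h3
    · rw [gg_neg h (by linarith), gg_pos (by linarith) (by linarith), indicator_of_mem (show t ∈ Ico (-1) (1 - z) from ⟨h, h3⟩)]
      ring
    · rw [gg_right (by linarith : 1 ≤ t + z), indicator_of_notMem (fun hm => by linarith [hm.2])]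
      ring
  rw [hf, (ind (-1) (1 - z) (-(1 - z) ^ 2 / 4) ((1 - z) * z / 2)
    (-(z ^ 2 - 2 * (1 - z)) / 4) (-z / 2) (-1 / 4) (by linarith)).2]
  ring

theorem large {z : ℝ} (h0 : 2 ≤ z) : ∫ t : ℝ, gg t * gg (t + z) = 0 := by
  have hf : (fun t : ℝ => gg t * gg (t + z)) = fun _ => 0 := by
    funext t
    rcases lt_or_ge t (-1) with h | h
    · rw [gg_left h, zero_mul]
    · rw [gg_right (by linarith : 1 ≤ t + z), mul_zero]
  rw [hf]
  simp

theorem nonneg {z : ℝ} (h0 : 0 ≤ z) : ∫ t : ℝ, gg t * gg (t + z) = rho z := by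
  unfold rho
  rw [abs_of_nonneg h0]
  split_ifs with h1 h2
  · rw [small h0 h1]
  · rw [middle (by linarith) h2]
  · exact large (by linarith)

theorem t_RHO : S_RHO := by
  intro z
  rcases le_total 0 z with h | h
  · exact nonneg h
  · have h1 := nonneg (z := -z) (by linarith)
    have h2 : rho (-z) = rho z := by
      unfold rho
      rw [abs_neg]
    rw [h2] at h1
    rw [← h1, ← integral_add_right_eq_self (fun t : ℝ => gg t * gg (t + -z)) z]
    congr 1
    funext t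
    rw [add_neg_cancel_right, mul_comm]

end Pool.Agent.U20.MV2.RHO
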